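import Pool.Agent.Helper34.FB.Goals

/-!
# Project FB (MP_05c055_al), packet FB-ADJ: lifting `M → H_0` to `B^r` and correcting the action
-/

set_option autoImplicit false

namespace Pool.Agent.Helper32.FB

open IsLocalRing Pool.Agent.Helper34.FB

universe u v w x y

section nullh

variable {A : Type u} {B : Type v} [CommRing A] [CommRing B] [Algebra A B] {p : ℕ}
  (H : HA.{u, v, w} A B p)

/-- degree one -/
def Deg1 (η : H.M →ₗ[A] H.M) : Prop := ∀ i z, η (H.pr i z) = H.pr (i + 1) (η z)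

/-- commutes with the differential and the projections -/
def Chain (g : H.M →ₗ[A] H.M) : Prop :=
  (∀ i z, g (H.pr i z) = H.pr i (g z)) ∧ ∀ z, H.d (g z) = g (H.d z)

variable {H}

theorem deg1_pr0 {η : H.M →ₗ[A] H.M} (h : Deg1 H η) (z : H.M) : H.pr 0 (η z) = 0 := by
  have h1 := congrArg η (H.pr_sum z)
  rw [map_sum] at h1
  rw [h1, map_sum]
  refine Finset.sum_eq_zero fun i _ => ?_
  rw [h i z, H.pr_ne 0 (i + 1) (by omega)]

theorem nullH_sub {f g : H.M →ₗ[A] H.M} (hf : NullH H f) (hg : NullH H g) :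
    NullH H (f - g) := by
  obtain ⟨η, h1, h2⟩ := hf
  obtain ⟨θ, h3, h4⟩ := hg
  refine ⟨η - θ, ?_, ?_⟩
  · intro i z
    rw [LinearMap.sub_apply, LinearMap.sub_apply, h1, h3, map_sub]
  · intro z
    rw [LinearMap.sub_apply, h2, h4, LinearMap.sub_apply, LinearMap.sub_apply, map_sub]
    abel

theorem nullH_add {f g : H.M →ₗ[A] H.M} (hf : NullH H f) (hg : NullH H g) :
    NullH H (f + g) := by
  obtain ⟨η, h1, h2⟩ := hf
  obtain ⟨θ, h3, h4⟩ := hg
  refine ⟨η + θ, ?_, ?_⟩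
  · intro i z
    rw [LinearMap.add_apply, LinearMap.add_apply, h1, h3, map_add]
  · intro z
    rw [LinearMap.add_apply, h2, h4, LinearMap.add_apply, LinearMap.add_apply, map_add]
    abel

theorem nullH_comp_right {f g : H.M →ₗ[A] H.M} (hf : NullH H f) (hg : Chain H g) :
    NullH H (f ∘ₗ g) := by
  obtain ⟨η, h1, h2⟩ := hf
  refine ⟨η ∘ₗ g, ?_, ?_⟩
  · intro i z
    rw [LinearMap.comp_apply, LinearMap.comp_apply, hg.1, h1]
  · intro z
    rw [LinearMap.comp_apply, h2, LinearMap.comp_apply, LinearMap.comp_apply, hg.2]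

theorem nullH_comp_left {f g : H.M →ₗ[A] H.M} (hf : NullH H f) (hg : Chain H g) :
    NullH H (g ∘ₗ f) := by
  obtain ⟨η, h1, h2⟩ := hf
  refine ⟨g ∘ₗ η, ?_, ?_⟩
  · intro i z
    rw [LinearMap.comp_apply, LinearMap.comp_apply, h1, hg.1]
  · intro z
    rw [LinearMap.comp_apply, h2, map_add, LinearMap.comp_apply, LinearMap.comp_apply, hg.2]

theorem nullH_chain {f : H.M →ₗ[A] H.M} (hf : NullH H f) : Chain H f := by
  obtain ⟨η, h1, h2⟩ := hf
  constructor
  · intro i z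
    rw [h2, h2, map_add, h1, H.d_pr]
    congr 1
    cases i with
    | zero => rw [H.d_zero, map_zero, deg1_pr0 h1]
    | succ j => rw [H.d_pr, h1]
  · intro z
    rw [h2, h2, map_add, H.dd, H.dd, zero_add, map_zero, add_zero]

theorem chain_sub {f g : H.M →ₗ[A] H.M} (hf : Chain H f) (hg : Chain H g) :
    Chain H (f - g) := by
  constructor
  · intro i z
    rw [LinearMap.sub_apply, LinearMap.sub_apply, hf.1, hg.1, map_sub]
  · intro z
    rw [LinearMap.sub_apply, LinearMap.sub_apply, map_sub, hf.2, hg.2]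

theorem chain_rho (b : B) : Chain H (H.ρ b) := ⟨H.ρ_pr b, H.ρ_d b⟩

theorem nullH_congr {f g : H.M →ₗ[A] H.M} (hf : NullH H f) (h : ∀ z, g z = f z) :
    NullH H g := by
  obtain ⟨η, h1, h2⟩ := hf
  exact ⟨η, h1, fun z => by rw [h, h2]⟩

/-- the corrected action -/
noncomputable def corr (H : HA.{u, v, w} A B p) (N : B → H.M →ₗ[A] H.M) (hN : ∀ b, NullH H (N b)) :
    HA.{u, v, w} A B p where
  M := H.M
  pr := H.pr
  pr_pr := H.pr_pr
  pr_ne := H.pr_ne
  pr_top := H.pr_top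
  pr_sum := H.pr_sum
  d := H.d
  dd := H.dd
  d_pr := H.d_pr
  d_zero := H.d_zero
  ρ b := H.ρ b - N b
  ρ_pr b i z := (chain_sub (chain_rho b) (nullH_chain (hN b))).1 i z
  ρ_d b z := (chain_sub (chain_rho b) (nullH_chain (hN b))).2 z
  one := by
    have h1 : NullH H (H.ρ 1 - LinearMap.id) := H.one
    obtain ⟨η, h2, h3⟩ := nullH_sub h1 (hN 1)
    refine ⟨η, h2, fun z => ?_⟩
    rw [← h3]
    simp only [LinearMap.sub_apply, LinearMap.id_apply]
    abel
  add b c := by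
    have h1 : NullH H (H.ρ (b + c) - (H.ρ b + H.ρ c)) := H.add b c
    obtain ⟨η, h2, h3⟩ := nullH_sub h1 (nullH_sub (nullH_sub (hN (b + c)) (hN b)) (hN c))
    refine ⟨η, h2, fun z => ?_⟩
    rw [← h3]
    simp only [LinearMap.sub_apply, LinearMap.add_apply]
    abel
  mul b c := by
    have h1 : NullH H (H.ρ (b * c) - H.ρ b ∘ₗ H.ρ c) := H.mul b c
    have h4 : NullH H (N b ∘ₗ H.ρ c) := nullH_comp_right (hN b) (chain_rho c)
    have h5 : NullH H (H.ρ b ∘ₗ N c) := nullH_comp_left (hN c) (chain_rho b)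
    have h6 : NullH H (N b ∘ₗ N c) := nullH_comp_right (hN b) (nullH_chain (hN c))
    obtain ⟨η, h2, h3⟩ := nullH_sub (nullH_add (nullH_add (nullH_sub h1 (hN (b * c))) h4) h5) h6
    refine ⟨η, h2, fun z => ?_⟩
    rw [← h3]
    simp only [LinearMap.sub_apply, LinearMap.add_apply, LinearMap.comp_apply, map_sub]
    abel
  alg a := by
    have h1 : NullH H (H.ρ (algebraMap A B a) - a • LinearMap.id) := H.alg a
    obtain ⟨η, h2, h3⟩ := nullH_sub h1 (hN (algebraMap A B a))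
    refine ⟨η, h2, fun z => ?_⟩
    rw [← h3]
    simp only [LinearMap.sub_apply, LinearMap.smul_apply, LinearMap.id_apply]
    abel

end nullh

theorem mem_smul_top {A : Type u} {B : Type v} [CommRing A] [CommRing B] [Algebra A B]
    (I : Ideal A) {r : ℕ} (x : Fin r → B) (h : ∀ i, x i ∈ Ideal.map (algebraMap A B) I) :
    x ∈ I • (⊤ : Submodule A (Fin r → B)) := by
  classical
  have h1 : x = ∑ i, Pi.single i (x i) := (Finset.univ_sum_single x).symm
  rw [h1]
  refine Submodule.sum_mem _ fun i _ => ?_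
  have h2 := h i
  have h3 : ∀ b ∈ Ideal.map (algebraMap A B) I,
      (Pi.single i b : Fin r → B) ∈ I • (⊤ : Submodule A (Fin r → B)) := by
    intro b hb
    unfold Ideal.map at hb
    refine Submodule.span_induction (p := fun b _ =>
      (Pi.single i b : Fin r → B) ∈ I • (⊤ : Submodule A (Fin r → B))) ?_ ?_ ?_ ?_ hb
    · rintro _ ⟨a, ha, rfl⟩
      have h4 : (Pi.single i (algebraMap A B a) : Fin r → B) = a • Pi.single i (1 : B) := by
        rw [← Pi.single_smul, Algebra.algebraMap_eq_smul_one]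
      rw [h4]
      exact Submodule.smul_mem_smul ha trivial
    · rw [Pi.single_zero]
      exact Submodule.zero_mem _
    · intro b c _ _ hb hc
      rw [Pi.single_add]
      exact Submodule.add_mem _ hb hc
    · intro c b _ hb
      -- multiplication by `c` is `A`-linear
      let L : (Fin r → B) →ₗ[A] (Fin r → B) :=
        { toFun := fun y => c • y
          map_add' := fun y z => smul_add c y z
          map_smul' := fun a y => smul_comm c a y }
      have h5 : (Pi.single i (c • b) : Fin r → B) = L (Pi.single i b) := by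
        show _ = c • (Pi.single i b : Fin r → B)
        rw [← Pi.single_smul]
      rw [h5]
      have h6 := Submodule.mem_map_of_mem (f := L) hb
      rw [Submodule.map_smul''] at h6
      exact Submodule.smul_mono le_rfl le_top h6
  exact h3 _ h2

theorem gADJ : Pool.Agent.Helper34.FB.G_ADJ.{u, v, w, x} := by
  intro A _ _ _ B _ _ _ p H N _ _ _ _ πN hH0 r β hβ hker
  obtain ⟨hN1, hN2, hN3, hN4⟩ := hH0
  -- the lifting
  obtain ⟨π₀, hπ₀⟩ := Module.projective_lifting_property (β.restrictScalars A) πN hβ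
  have hπ₀' : ∀ z, β (π₀ z) = πN z := fun z => LinearMap.congr_fun hπ₀ z
  set π : H.M →ₗ[A] (Fin r → B) := π₀ ∘ₗ H.pr 0 with hπ
  have hβπ : ∀ z, β (π z) = πN (H.pr 0 z) := fun z => hπ₀' _
  have hπ0 : ∀ z, π (H.pr 0 z) = π z := fun z => by
    show π₀ (H.pr 0 (H.pr 0 z)) = π₀ (H.pr 0 z)
    rw [H.pr_pr]
  -- surjectivity
  have hsurj : LinearMap.range π = ⊤ := by
    rw [eq_top_iff]
    refine Submodule.le_of_le_smul_of_le_jacobson_bot (I := maximalIdeal A) Module.Finite.fg_top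
      (IsLocalRing.maximalIdeal_le_jacobson ⊥) ?_
    intro x _
    obtain ⟨z, hz⟩ := hN2 (β x)
    have h1 : β (x - π z) = 0 := by rw [map_sub, hβπ, hz, sub_self]
    have h2 := hker (x - π z) (by rw [h1]; exact Submodule.zero_mem _)
    have h3 : x = π z + (x - π z) := by abel
    rw [h3]
    exact Submodule.add_mem_sup ⟨z, rfl⟩ (mem_smul_top _ _ h2)
  have hsurj' : ∀ x, ∃ z, π z = x := fun x => by
    have : x ∈ LinearMap.range π := by rw [hsurj]; trivial
    exact this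
  -- the kernel of `β`
  have hdpr : ∀ y, H.pr 0 (H.d (H.pr 1 y)) = H.d (H.pr 1 y) := by
    intro y
    rw [← H.d_pr 0, H.pr_pr]
  set K : Submodule A (Fin r → B) := LinearMap.ker (β.restrictScalars A) with hK
  have hlamK : ∀ y, π (H.d (H.pr 1 y)) ∈ K := by
    intro y
    rw [hK, LinearMap.mem_ker]
    show β (π (H.d (H.pr 1 y))) = 0
    rw [hβπ, hN3]
    exact ⟨y, hdpr y⟩
  let lam : H.M →ₗ[A] K := LinearMap.codRestrict K (π ∘ₗ H.d ∘ₗ H.pr 1) hlamK
  have hlam : Function.Surjective lam := by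
    rintro ⟨x, hx⟩
    have hx' : β x = 0 := hx
    obtain ⟨z, rfl⟩ := hsurj' x
    rw [hβπ, hN3] at hx'
    obtain ⟨y, hy⟩ := hx'
    refine ⟨y, Subtype.ext ?_⟩
    show π (H.d (H.pr 1 y)) = π z
    rw [← hy, hπ0]
  -- the corrections
  have hσ : ∀ b : B, ∃ σ : H.M →ₗ[A] H.M, ∀ z,
      π (H.d (H.pr 1 (σ z))) = π (H.ρ b (H.pr 0 z)) - b • π z := by
    intro b
    let bL : (Fin r → B) →ₗ[A] (Fin r → B) :=
      { toFun := fun y => b • y
        map_add' := fun y z => smul_add b y z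
        map_smul' := fun a y => smul_comm b a y }
    have hf : ∀ z, (π ∘ₗ H.ρ b ∘ₗ H.pr 0 - bL ∘ₗ π) z ∈ K := by
      intro z
      rw [hK, LinearMap.mem_ker]
      show β (π (H.ρ b (H.pr 0 z)) - b • π z) = 0
      rw [map_sub, hβπ, ← H.ρ_pr, H.pr_pr, hN1, map_smul, hβπ, sub_self]
    obtain ⟨σ, hσ⟩ := Module.projective_lifting_property lam
      (LinearMap.codRestrict K (π ∘ₗ H.ρ b ∘ₗ H.pr 0 - bL ∘ₗ π) hf) hlam
    refine ⟨σ, fun z => ?_⟩
    exact congrArg Subtype.val (LinearMap.congr_fun hσ z)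
  choose σ hσ using hσ
  set N' : B → H.M →ₗ[A] H.M := fun b =>
    H.d ∘ₗ (H.pr 1 ∘ₗ σ b ∘ₗ H.pr 0) + (H.pr 1 ∘ₗ σ b ∘ₗ H.pr 0) ∘ₗ H.d with hN'
  have hnull : ∀ b, NullH H (N' b) := by
    intro b
    refine ⟨H.pr 1 ∘ₗ σ b ∘ₗ H.pr 0, ?_, fun z => rfl⟩
    intro i z
    show H.pr 1 (σ b (H.pr 0 (H.pr i z))) = H.pr (i + 1) (H.pr 1 (σ b (H.pr 0 z)))
    cases i with
    | zero => rw [H.pr_pr, H.pr_pr]
    | succ j => rw [H.pr_ne 0 (j + 1) (by omega), map_zero, map_zero, H.pr_ne (j + 1 + 1) 1 (by omega)]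
  refine ⟨corr H N' hnull, LinearEquiv.refl A H.M, π, fun z => rfl, fun i z => rfl, ?_, ?_, ?_⟩
  · intro b z
    show π (H.ρ b (H.pr 0 z) - N' b (H.pr 0 z)) = b • π (H.pr 0 z)
    have h1 : N' b (H.pr 0 z) = H.d (H.pr 1 (σ b (H.pr 0 z))) := by
      show H.d (H.pr 1 (σ b (H.pr 0 (H.pr 0 z)))) + H.pr 1 (σ b (H.pr 0 (H.d (H.pr 0 z)))) = _
      rw [H.pr_pr, H.d_zero, map_zero, map_zero, map_zero, add_zero]
    rw [h1, map_sub, hσ, H.pr_pr]
    abel
  · intro x
    obtain ⟨z, hz⟩ := hsurj' x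
    exact ⟨z, (hπ0 z).trans hz⟩
  · intro z
    show β (π (H.pr 0 z)) = πN (H.pr 0 z)
    rw [hπ0, hβπ]

end Pool.Agent.Helper32.FB
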